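import Pool.Agent.H95.GY.Targets

/-! (AFF) inverse systems of finite-dimensional affine spaces -/

set_option autoImplicit false

open Filter Topology MeasureTheory Set
open scoped Pointwise

universe u v

namespace Pool.Agent.H66.GY

open Pool.Agent.H95.GY

/-- direction of a set closed under affine combinations -/
def dirS {E : Type} [AddCommGroup E] [Module ℝ E] (A : Set E) (a : E) (ha : a ∈ A)
    (h : ∀ x ∈ A, ∀ y ∈ A, ∀ t : ℝ, (1 - t) • x + t • y ∈ A) : Submodule ℝ E where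
  carrier := {u | a + u ∈ A}
  zero_mem' := by
    show a + 0 ∈ A
    rwa [add_zero]
  smul_mem' := by
    intro c u hu
    show a + c • u ∈ A
    have h1 := h a ha (a + u) hu c
    have h2 : (1 - c) • a + c • (a + u) = a + c • u := by module
    rwa [h2] at h1
  add_mem' := by
    intro u w hu hw
    show a + (u + w) ∈ A
    have h1 := h a ha (a + u) hu 2
    have h2 := h a ha (a + w) hw 2
    have h3 := h _ h1 _ h2 (1 / 2)
    have h4 : (1 - (1 / 2 : ℝ)) • ((1 - (2 : ℝ)) • a + (2 : ℝ) • (a + u)) +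
        (1 / 2 : ℝ) • ((1 - (2 : ℝ)) • a + (2 : ℝ) • (a + w)) = a + (u + w) := by module
    rwa [h4] at h3

theorem mem_of_dual {E : Type} [AddCommGroup E] [Module ℝ E] {A : Set E} {a x : E} (ha : a ∈ A)
    (h : ∀ x ∈ A, ∀ y ∈ A, ∀ t : ℝ, (1 - t) • x + t • y ∈ A)
    (hx : ∀ l : Module.Dual ℝ E, (∀ y ∈ A, l y = l a) → l x = l a) : x ∈ A := by
  by_contra hn
  have h1 : x - a ∉ dirS A a ha h := by
    intro h2
    apply hn
    have h3 : a + (x - a) ∈ A := h2
    rwa [add_sub_cancel] at h3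
  obtain ⟨l, hl, hl2⟩ := Submodule.exists_dual_map_eq_bot_of_notMem h1 inferInstance
  have h3 : ∀ u ∈ dirS A a ha h, l u = 0 := by
    intro u hu
    have h4 : l u ∈ (dirS A a ha h).map l := Submodule.mem_map_of_mem hu
    rw [hl2] at h4
    exact (Submodule.mem_bot _).1 h4
  apply hl
  rw [map_sub, hx l ?_, sub_self]
  intro y hy
  have h5 := h3 (y - a) (show a + (y - a) ∈ A by rwa [add_sub_cancel])
  rw [map_sub] at h5
  linarith

theorem exists_fun {V : Type u} [AddCommGroup V] [Module ℝ V] (S : Submodule ℝ (V × ℝ))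
    (h : ((0 : V), (1 : ℝ)) ∉ S) : ∃ F : V →ₗ[ℝ] ℝ, ∀ v c, (v, c) ∈ S → F v = c := by
  obtain ⟨F', hF1, hF2⟩ := Submodule.exists_dual_map_eq_bot_of_notMem h inferInstance
  have hF3 : ∀ p ∈ S, F' p = 0 := by
    intro p hp
    have h4 : F' p ∈ S.map F' := Submodule.mem_map_of_mem hp
    rw [hF2] at h4
    exact (Submodule.mem_bot _).1 h4
  refine ⟨(-(F' (0, 1))⁻¹) • (F' ∘ₗ LinearMap.inl ℝ V ℝ), ?_⟩
  intro v c h
  have h1 := hF3 _ h
  have h2 : ((v, c) : V × ℝ) = (v, 0) + c • ((0 : V), (1 : ℝ)) := by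
    ext
    · simp
    · simp
  rw [h2, map_add, map_smul, smul_eq_mul] at h1
  show -(F' (0, 1))⁻¹ * F' (v, 0) = c
  have h3 : F' (v, 0) = -(c * F' (0, 1)) := by linarith
  rw [h3]
  field_simp

theorem exists_sum {I : Type u} (E : I → Type) [∀ i, AddCommGroup (E i)]
    [∀ i, Module ℝ (E i)] : ∃ (V : Type u) (_ : AddCommGroup V) (_ : Module ℝ V)
    (of : ∀ i, Module.Dual ℝ (E i) →ₗ[ℝ] V) (ev : (∀ i, E i) → (V →ₗ[ℝ] ℝ)),
    ∀ (x : ∀ i, E i) (i : I) (l : Module.Dual ℝ (E i)), ev x (of i l) = l (x i) := by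
  classical
  refine ⟨Π₀ i, Module.Dual ℝ (E i), inferInstance, inferInstance, fun i =>
    DFinsupp.lsingle (R := ℝ) (M := fun i => Module.Dual ℝ (E i)) i, fun x =>
    DFinsupp.lsum (R := ℝ) (M := fun i => Module.Dual ℝ (E i)) ℕ
      fun i => Module.Dual.eval ℝ (E i) (x i), ?_⟩
  intro x i l
  show DFinsupp.lsum ℕ (fun i => Module.Dual.eval ℝ (E i) (x i)) (DFinsupp.single i l) = _
  rw [DFinsupp.lsum_single]
  rfl

theorem pf_AFF : T_AFF.{u} := by
  intro I _ _ E _ _ _ f A hdir hcomp hne haff hmap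
  classical
  choose a ha using hne
  obtain ⟨V, _, _, of, ev, hev⟩ := exists_sum E
  let R1 : Set (V × ℝ) := {p | ∃ (i : I) (l : Module.Dual ℝ (E i)),
    (∀ y ∈ A i, l y = l (a i)) ∧ p = (of i l, l (a i))}
  let R2 : Set (V × ℝ) := {p | ∃ (i j : I) (hij : i ≤ j) (l : Module.Dual ℝ (E i)),
    p = (of j (l ∘ₗ f i j hij) - of i l, 0)}
  let S : Submodule ℝ (V × ℝ) := Submodule.span ℝ (R1 ∪ R2)
  let xs : ∀ k, E k → ∀ i, E i := fun k z i => if h : i ≤ k then f i k h z else 0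
  have hxs : ∀ (k : I) (z : E k) (i : I) (h : i ≤ k), xs k z i = f i k h z := fun k z i h =>
    dif_pos h
  have key : ∀ p ∈ S, ∃ k0, ∀ k, k0 ≤ k → ∀ z ∈ A k, ev (xs k z) p.1 = p.2 := by
    intro p hp
    induction hp using Submodule.span_induction with
    | mem p hp =>
      rcases hp with ⟨i, l, hl, rfl⟩ | ⟨i, j, hij, l, rfl⟩
      · refine ⟨i, fun k hk z hz => ?_⟩
        show ev (xs k z) (of i l) = l (a i)
        rw [hev, hxs k z i hk]
        exact hl _ (hmap i k hk z hz)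
      · refine ⟨j, fun k hk z hz => ?_⟩
        show ev (xs k z) (of j (l ∘ₗ f i j hij) - of i l) = 0
        rw [map_sub, hev, hev, hxs k z j hk, hxs k z i (hij.trans hk), LinearMap.comp_apply,
          hcomp i j k hij hk z, sub_self]
    | zero =>
      obtain ⟨k0⟩ := ‹Nonempty I›
      exact ⟨k0, fun k _ z _ => map_zero _⟩
    | add p q _ _ hp hq =>
      obtain ⟨k1, h1⟩ := hp
      obtain ⟨k2, h2⟩ := hq
      obtain ⟨k3, h31, h32⟩ := hdir k1 k2
      refine ⟨k3, fun k hk z hz => ?_⟩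
      rw [Prod.fst_add, Prod.snd_add, map_add, h1 k (h31.trans hk) z hz, h2 k (h32.trans hk) z hz]
    | smul c p _ hp =>
      obtain ⟨k1, h1⟩ := hp
      refine ⟨k1, fun k hk z hz => ?_⟩
      rw [Prod.smul_fst, Prod.smul_snd, map_smul, h1 k hk z hz]
  have hnot : ((0 : V), (1 : ℝ)) ∉ S := by
    intro h
    obtain ⟨k0, h0⟩ := key _ h
    have h1 := h0 k0 le_rfl (a k0) (ha k0)
    have h2 : (0 : ℝ) = 1 := (map_zero (ev (xs k0 (a k0)))).symm.trans h1
    exact zero_ne_one h2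
  obtain ⟨F, hF⟩ := exists_fun S hnot
  let x : ∀ i, E i := fun i => (Module.evalEquiv ℝ (E i)).symm (F ∘ₗ of i)
  have hx : ∀ (i : I) (l : Module.Dual ℝ (E i)), l (x i) = F (of i l) := by
    intro i l
    show l ((Module.evalEquiv ℝ (E i)).symm (F ∘ₗ of i)) = _
    rw [Module.apply_evalEquiv_symm_apply]
    rfl
  refine ⟨x, ?_, ?_⟩
  · intro i
    refine mem_of_dual (ha i) (haff i) fun l hl => ?_
    rw [hx]
    exact hF _ _ (Submodule.subset_span (Or.inl ⟨i, l, hl, rfl⟩))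
  · intro i j hij
    rw [← sub_eq_zero, ← Module.forall_dual_apply_eq_zero_iff ℝ]
    intro l
    have h1 : F (of j (l ∘ₗ f i j hij) - of i l) = 0 :=
      hF _ _ (Submodule.subset_span (Or.inr ⟨i, j, hij, l, rfl⟩))
    rw [map_sub, ← hx, ← hx, LinearMap.comp_apply] at h1
    rw [map_sub]
    exact h1

end Pool.Agent.H66.GY
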