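import Pool.Agent.H95.GY.Targets

/-! (HP) the exponential of a sum near zero -/

set_option autoImplicit false

open Filter Topology MeasureTheory Set
open scoped Pointwise

universe u v

namespace Pool.Agent.H66.GY

open Pool.Agent.H95.GY

theorem pf_HP (hFF : T_FF.{u}) (hHB : T_HB.{u}) (hHS : T_HS.{u}) (hHU : T_HU.{u}) :
    T_HP.{u} := by
  intro Q _ _ _ _ ν φ r C h
  obtain ⟨s, hs, C1, hC1, hff⟩ := hFF Q ν φ r C h
  have hC : 0 < C := lt_of_lt_of_le one_pos h.C_pos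
  refine ⟨s / C, div_pos hs hC, C1 * C ^ 2, by positivity, ?_⟩
  intro X Y Z D D' M M' hX hY hZ hM hM' hD hD'
  obtain ⟨Z', hZ', hlim⟩ := hHS Q ν φ r C h X Y D D' hX hY
  have hZZ : Z' = Z := hHU Q ν φ r C h Z' Z _ hZ' hZ
  subst hZZ
  have hM0 : 0 ≤ M := (abs_nonneg _).trans (hD 1)
  have hM0' : 0 ≤ M' := (abs_nonneg _).trans (hD' 1)
  have hCM : C * M ≤ s := by
    have := mul_le_mul_of_nonneg_left hM hC.le
    rwa [mul_div_cancel₀ _ hC.ne'] at this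
  have hCM' : C * M' ≤ s := by
    have := mul_le_mul_of_nonneg_left hM' hC.le
    rwa [mul_div_cancel₀ _ hC.ne'] at this
  have key : ∀ n : ℕ, n ≠ 0 →
      ν ((X (1 / n) * Y (1 / n)) ^ n * (X 1 * Y 1)⁻¹) ≤ C1 * C ^ 2 * M * M' := by
    intro n hn
    have hn0 : (0 : ℝ) < n := by exact_mod_cast Nat.pos_of_ne_zero hn
    have a1 : (n : ℝ) * ν (X (1 / n)) ≤ C * M := by
      have h1 := hHB Q ν φ r C h X D M hX hD (1 / n)
      rw [abs_of_pos (by positivity)] at h1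
      have h2 := mul_le_mul_of_nonneg_left h1 hn0.le
      have h3 : (n : ℝ) * (C * M * (1 / n)) = C * M := by field_simp
      rwa [h3] at h2
    have a2 : (n : ℝ) * ν (Y (1 / n)) ≤ C * M' := by
      have h1 := hHB Q ν φ r C h Y D' M' hY hD' (1 / n)
      rw [abs_of_pos (by positivity)] at h1
      have h2 := mul_le_mul_of_nonneg_left h1 hn0.le
      have h3 : (n : ℝ) * (C * M' * (1 / n)) = C * M' := by field_simp
      rwa [h3] at h2
    have a3 := hff (X (1 / n)) (Y (1 / n)) n (a1.trans hCM) (a2.trans hCM')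
    rw [hX.1.div hn, hY.1.div hn] at a3
    refine a3.trans ?_
    have b1 : 0 ≤ (n : ℝ) * ν (X (1 / n)) := mul_nonneg hn0.le (h.nonneg _)
    have b2 : 0 ≤ (n : ℝ) * ν (Y (1 / n)) := mul_nonneg hn0.le (h.nonneg _)
    have b3 : ((n : ℝ) * ν (X (1 / n))) * ((n : ℝ) * ν (Y (1 / n))) ≤ (C * M) * (C * M') :=
      mul_le_mul a1 a2 b2 (b1.trans a1)
    have b4 := mul_le_mul_of_nonneg_left b3 hC1.le
    calc C1 * (n : ℝ) ^ 2 * ν (X (1 / n)) * ν (Y (1 / n))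
        = C1 * (((n : ℝ) * ν (X (1 / n))) * ((n : ℝ) * ν (Y (1 / n)))) := by ring
      _ ≤ C1 * ((C * M) * (C * M')) := b4
      _ = C1 * C ^ 2 * M * M' := by ring
  have hl : Tendsto (fun n : ℕ => Z' 1 * ((X (1 / n) * Y (1 / n)) ^ n)⁻¹) atTop (𝓝 1) := by
    have h1 := (tendsto_const_nhds (x := Z' 1)).mul (hlim 1).inv
    rwa [mul_inv_cancel] at h1
  refine le_of_forall_pos_le_add fun ε hε => ?_
  have he := hl.eventually (h.nhd ε hε)
  obtain ⟨n, hn1, hn2⟩ := (he.and (eventually_ne_atTop 0)).exists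
  have h1 := h.mul (Z' 1 * ((X (1 / n) * Y (1 / n)) ^ n)⁻¹)
    ((X (1 / n) * Y (1 / n)) ^ n * (X 1 * Y 1)⁻¹)
  have h2 : Z' 1 * ((X (1 / n) * Y (1 / n)) ^ n)⁻¹ *
      ((X (1 / n) * Y (1 / n)) ^ n * (X 1 * Y 1)⁻¹) = Z' 1 * (X 1 * Y 1)⁻¹ := by group
  rw [h2] at h1
  have h3 := key n hn2
  have h4 : ν (Z' 1 * ((X (1 / n) * Y (1 / n)) ^ n)⁻¹) < ε := hn1
  linarith

end Pool.Agent.H66.GY
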